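import Pool.Agent.P8H88.SE.Gfd

/-!
# Project SE (helper40), package PW: the power series `u ^ β`
-/

set_option autoImplicit false

open PowerSeries Finset.HasAntidiagonal

namespace Pool.Agent.P8H47.SE

open Pool.Agent.Y113 Pool.Agent.P8H40.SE

/-- binomial coefficients -/
noncomputable def ch (β : ℚ) (s : ℕ) : ℚ := ∏ l ∈ Finset.range s, ((β - l) / ((l : ℚ) + 1))

lemma ch_zero (β : ℚ) : ch β 0 = 1 := by simp [ch]

lemma ch_succ (β : ℚ) (s : ℕ) : ((s : ℚ) + 1) * ch β (s + 1) = (β - s) * ch β s := by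
  unfold ch
  rw [Finset.prod_range_succ]
  have h : ((s : ℚ) + 1) ≠ 0 := by positivity
  field_simp

lemma ch_abs (β : ℚ) (s : ℕ) : |((ch β s : ℚ) : ℝ)| ≤ (|(β : ℝ)| + 1) ^ s := by
  unfold ch
  push_cast
  rw [Finset.abs_prod]
  have e : (|(β : ℝ)| + 1) ^ s = ∏ _l ∈ Finset.range s, (|(β : ℝ)| + 1) := by simp
  rw [e]
  refine Finset.prod_le_prod (fun _ _ => abs_nonneg _) fun l _ => ?_
  have h1 : (0 : ℝ) < (l : ℝ) + 1 := by positivity
  rw [abs_div, abs_of_pos h1, div_le_iff₀ h1]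
  have h2 : |(β : ℝ) - l| ≤ |(β : ℝ)| + l := by
    have := abs_sub (β : ℝ) (l : ℝ)
    rwa [Nat.abs_cast] at this
  nlinarith [abs_nonneg (β : ℝ), mul_nonneg (abs_nonneg (β : ℝ)) (Nat.cast_nonneg (α := ℝ) l)]

lemma ch_int (β : ℚ) (s : ℕ) : ∃ a : ℤ, ((β.den : ℚ) ^ 2) ^ s * ch β s = a := by
  obtain ⟨a, ha⟩ := Pool.Agent.P8H88.SE.choose_int β.num β.den_pos s
  refine ⟨a, ?_⟩
  rw [← ha, Pool.Agent.P8H88.SE.choose_prod, Rat.num_div_den]
  rfl

/-- partial sums of the binomial series -/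
noncomputable def PS (β : ℚ) (w : ℚ⟦X⟧) (J : ℕ) : ℚ⟦X⟧ := ∑ j ∈ Finset.range (J + 1), C (ch β j) * w ^ j

lemma PS_succ (β : ℚ) (w : ℚ⟦X⟧) (J : ℕ) :
    PS β w (J + 1) = PS β w J + C (ch β (J + 1)) * w ^ (J + 1) := by
  unfold PS
  rw [Finset.sum_range_succ _ (J + 1)]

lemma ode_PS (β : ℚ) (w : ℚ⟦X⟧) (J : ℕ) :
    (1 + w) * d⁄dX ℚ (PS β w J) - C β * d⁄dX ℚ w * PS β w J = - (C ((β - J) * ch β J) * w ^ J * d⁄dX ℚ w) := by
  induction J with
  | zero =>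
    have e : PS β w 0 = 1 := by simp [PS, ch_zero]
    rw [e]
    simp [ch_zero]
  | succ J ih =>
    rw [PS_succ, map_add, Derivation.leibniz, Derivation.leibniz_pow]
    have h1 : d⁄dX ℚ (C (ch β (J + 1))) = 0 := by simp
    rw [h1]
    rw [← ch_succ] at ih
    have h2 : (C (((J : ℚ) + 1) * ch β (J + 1)) : ℚ⟦X⟧) = ((J : ℚ⟦X⟧) + 1) * C (ch β (J + 1)) := by
      rw [map_mul, map_add, map_one, map_natCast]
    have h3 : (C ((β - ((J + 1 : ℕ) : ℚ)) * ch β (J + 1)) : ℚ⟦X⟧) =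
        C β * C (ch β (J + 1)) - ((J : ℚ⟦X⟧) + 1) * C (ch β (J + 1)) := by
      rw [map_mul, map_sub, map_natCast]
      push_cast
      ring
    rw [h2] at ih
    rw [h3]
    simp only [smul_eq_mul, nsmul_eq_mul, Nat.add_sub_cancel]
    push_cast
    linear_combination ih

lemma X_pow_dvd_pow {w : ℚ⟦X⟧} (hw : constantCoeff w = 0) (j : ℕ) : (X : ℚ⟦X⟧) ^ j ∣ w ^ j :=
  pow_dvd_pow_of_dvd (X_dvd_iff.2 hw) j

lemma coeff_pow_zero {w : ℚ⟦X⟧} (hw : constantCoeff w = 0) {j m : ℕ} (h : m < j) : coeff m (w ^ j) = 0 :=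
  X_pow_dvd_iff.1 (X_pow_dvd_pow hw j) m h

lemma PS_stable {β : ℚ} {w : ℚ⟦X⟧} (hw : constantCoeff w = 0) {m J : ℕ} (h : m ≤ J) :
    coeff m (PS β w J) = coeff m (PS β w m) := by
  induction J, h using Nat.le_induction with
  | base => rfl
  | succ J hJ ih =>
    rw [PS_succ, map_add, ih, coeff_C_mul, coeff_pow_zero hw (by omega), mul_zero, add_zero]

/-- the binomial series -/
noncomputable def BS (β : ℚ) (w : ℚ⟦X⟧) : ℚ⟦X⟧ := PowerSeries.mk fun m => coeff m (PS β w m)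

lemma BS_agree {β : ℚ} {w : ℚ⟦X⟧} (hw : constantCoeff w = 0) {m J : ℕ} (h : m ≤ J) :
    coeff m (BS β w) = coeff m (PS β w J) := by
  rw [PS_stable hw h]
  exact coeff_mk _ _

lemma ode_BS {β : ℚ} {w : ℚ⟦X⟧} (hw : constantCoeff w = 0) :
    (1 + w) * d⁄dX ℚ (BS β w) = C β * d⁄dX ℚ w * BS β w := by
  rw [← sub_eq_zero]
  ext m
  have h1 : coeff m ((1 + w) * d⁄dX ℚ (BS β w)) = coeff m ((1 + w) * d⁄dX ℚ (PS β w (m + 1))) := by
    rw [coeff_mul, coeff_mul]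
    refine Finset.sum_congr rfl fun p hp => ?_
    rw [Finset.HasAntidiagonal.mem_antidiagonal] at hp
    rw [coeff_derivative, coeff_derivative, BS_agree hw (by omega : p.2 + 1 ≤ m + 1)]
  have h2 : coeff m (C β * d⁄dX ℚ w * BS β w) = coeff m (C β * d⁄dX ℚ w * PS β w (m + 1)) := by
    rw [coeff_mul, coeff_mul]
    refine Finset.sum_congr rfl fun p hp => ?_
    rw [Finset.HasAntidiagonal.mem_antidiagonal] at hp
    rw [BS_agree hw (by omega : p.2 ≤ m + 1)]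
  rw [map_sub, h1, h2, ← map_sub, ode_PS, map_neg, map_zero, neg_eq_zero]
  have h3 : (X : ℚ⟦X⟧) ^ (m + 1) ∣
      C ((β - ((m + 1 : ℕ) : ℚ)) * ch β (m + 1)) * w ^ (m + 1) * d⁄dX ℚ w :=
    Dvd.dvd.mul_right (Dvd.dvd.mul_left (X_pow_dvd_pow hw _) _) _
  exact X_pow_dvd_iff.1 h3 m (by omega)

/-! ### sizes and denominators -/

lemma sum_coeff_le (v : Polynomial ℚ) (n : ℕ) :
    ∑ a ∈ Finset.range n, |((v.coeff a : ℚ) : ℝ)| ≤ 1 + ∑ a ∈ v.support, |((v.coeff a : ℚ) : ℝ)| := by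
  classical
  have h1 : ∑ a ∈ Finset.range n, |((v.coeff a : ℚ) : ℝ)| =
      ∑ a ∈ (Finset.range n).filter (· ∈ v.support), |((v.coeff a : ℚ) : ℝ)| := by
    rw [Finset.sum_filter]
    refine Finset.sum_congr rfl fun a _ => ?_
    split_ifs with h
    · rfl
    · rw [Polynomial.notMem_support_iff.1 h]
      simp
  rw [h1]
  have h2 : ∑ a ∈ (Finset.range n).filter (· ∈ v.support), |((v.coeff a : ℚ) : ℝ)| ≤
      ∑ a ∈ v.support, |((v.coeff a : ℚ) : ℝ)| :=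
    Finset.sum_le_sum_of_subset_of_nonneg (fun a ha => (Finset.mem_filter.1 ha).2)
      fun _ _ _ => abs_nonneg _
  linarith

lemma pow_size (v : Polynomial ℚ) (j : ℕ) : ∀ m,
    |((coeff m ((v : ℚ⟦X⟧) ^ j) : ℚ) : ℝ)| ≤ (1 + ∑ a ∈ v.support, |((v.coeff a : ℚ) : ℝ)|) ^ j := by
  set S : ℝ := 1 + ∑ a ∈ v.support, |((v.coeff a : ℚ) : ℝ)| with hS
  have hS1 : 1 ≤ S := by
    have : 0 ≤ ∑ a ∈ v.support, |((v.coeff a : ℚ) : ℝ)| := Finset.sum_nonneg fun _ _ => abs_nonneg _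
    linarith
  induction j with
  | zero =>
    intro m
    rw [pow_zero, pow_zero, coeff_one]
    split_ifs <;> simp
  | succ j ih =>
    intro m
    rw [pow_succ', coeff_mul, pow_succ']
    push_cast
    refine (Finset.abs_sum_le_sum_abs _ _).trans ?_
    calc ∑ p ∈ antidiagonal m, |((v.coeff p.1 : ℚ) : ℝ) * ((coeff p.2 ((v : ℚ⟦X⟧) ^ j) : ℚ) : ℝ)|
        ≤ ∑ p ∈ antidiagonal m, |((v.coeff p.1 : ℚ) : ℝ)| * S ^ j := by
          refine Finset.sum_le_sum fun p _ => ?_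
          rw [abs_mul]
          exact mul_le_mul_of_nonneg_left (ih _) (abs_nonneg _)
      _ = (∑ a ∈ Finset.range (m + 1), |((v.coeff a : ℚ) : ℝ)|) * S ^ j := by
          rw [Finset.Nat.sum_antidiagonal_eq_sum_range_succ_mk, Finset.sum_mul]
      _ ≤ S * S ^ j := mul_le_mul_of_nonneg_right (sum_coeff_le v _) (by positivity)

lemma common_den (v : Polynomial ℚ) : ∃ b : ℕ, 0 < b ∧ ∀ i, ((b : ℚ) * v.coeff i) ∈ (Int.castRingHom ℚ).range := by
  classical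
  refine ⟨∏ i ∈ v.support, (v.coeff i).den, Finset.prod_pos fun i _ => (v.coeff i).den_pos, fun i => ?_⟩
  by_cases h : i ∈ v.support
  · obtain ⟨c, hc⟩ := Finset.dvd_prod_of_mem (fun i => (v.coeff i).den) h
    refine ⟨c * (v.coeff i).num, ?_⟩
    have h1 : (v.coeff i) * ((v.coeff i).den : ℚ) = (v.coeff i).num := Rat.mul_den_eq_num _
    rw [hc]
    simp only [eq_intCast, Int.cast_mul, Int.cast_natCast, Nat.cast_mul]
    linear_combination (-(c : ℚ)) * h1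
  · rw [Polynomial.notMem_support_iff.1 h, mul_zero]
    exact Subring.zero_mem _

lemma pow_int (v : Polynomial ℚ) {b : ℕ} (hb : ∀ i, ((b : ℚ) * v.coeff i) ∈ (Int.castRingHom ℚ).range) (j : ℕ) :
    ∀ m, ((b : ℚ) ^ j * coeff m ((v : ℚ⟦X⟧) ^ j)) ∈ (Int.castRingHom ℚ).range := by
  induction j with
  | zero =>
    intro m
    rw [pow_zero, pow_zero, coeff_one, one_mul]
    split_ifs
    · exact Subring.one_mem _
    · exact Subring.zero_mem _
  | succ j ih =>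
    intro m
    rw [pow_succ' (v : ℚ⟦X⟧), coeff_mul, Finset.mul_sum]
    refine Subring.sum_mem _ fun p _ => ?_
    have e : (b : ℚ) ^ (j + 1) * (coeff p.1 (v : ℚ⟦X⟧) * coeff p.2 ((v : ℚ⟦X⟧) ^ j)) =
        ((b : ℚ) * v.coeff p.1) * ((b : ℚ) ^ j * coeff p.2 ((v : ℚ⟦X⟧) ^ j)) := by
      rw [Polynomial.coeff_coe]
      ring
    rw [e]
    exact Subring.mul_mem _ (hb _) (ih _)

lemma SDc_BS (v : Polynomial ℚ) (β : ℚ) : SDc (BS β (v : ℚ⟦X⟧)) := by
  obtain ⟨b, hb0, hb⟩ := common_den v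
  set S : ℝ := 1 + ∑ a ∈ v.support, |((v.coeff a : ℚ) : ℝ)| with hS
  have hS1 : 1 ≤ S := by
    have : 0 ≤ ∑ a ∈ v.support, |((v.coeff a : ℚ) : ℝ)| := Finset.sum_nonneg fun _ _ => abs_nonneg _
    linarith
  set R : ℝ := (|(β : ℝ)| + 1) * S with hR
  have hβ1 : 1 ≤ |(β : ℝ)| + 1 := by linarith [abs_nonneg (β : ℝ)]
  have hR1 : 1 ≤ R := by nlinarith
  have hq0 : 0 < β.den := β.den_pos
  -- the constant
  obtain ⟨n₁, hn₁⟩ := pow_unbounded_of_one_lt (2 * R) (show (1 : ℝ) < 2 by norm_num)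
  obtain ⟨n₂, hn₂⟩ := pow_unbounded_of_one_lt ((b : ℝ) * (β.den : ℝ) ^ 2) (show (1 : ℝ) < 2 by norm_num)
  have hbq : (1 : ℝ) ≤ (b : ℝ) * (β.den : ℝ) ^ 2 := by
    have : 1 ≤ b * β.den ^ 2 := Nat.mul_pos hb0 (pow_pos hq0 2)
    exact_mod_cast this
  refine ⟨n₁ + n₂, ?_, ?_⟩
  · intro m
    unfold BS PS
    rw [coeff_mk, map_sum]
    push_cast
    refine (Finset.abs_sum_le_sum_abs _ _).trans ?_
    calc ∑ j ∈ Finset.range (m + 1), |((coeff m (C (ch β j) * (v : ℚ⟦X⟧) ^ j) : ℚ) : ℝ)|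
        ≤ ∑ _j ∈ Finset.range (m + 1), R ^ m := by
          refine Finset.sum_le_sum fun j hj => ?_
          rw [Finset.mem_range] at hj
          rw [coeff_C_mul]
          push_cast
          rw [abs_mul]
          calc |((ch β j : ℚ) : ℝ)| * |((coeff m ((v : ℚ⟦X⟧) ^ j) : ℚ) : ℝ)|
              ≤ (|(β : ℝ)| + 1) ^ j * S ^ j :=
                mul_le_mul (ch_abs β j) (pow_size v j m) (abs_nonneg _) (by positivity)
            _ = R ^ j := by rw [← mul_pow]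
            _ ≤ R ^ m := pow_le_pow_right₀ hR1 (by omega)
      _ = ((m + 1 : ℕ) : ℝ) * R ^ m := by rw [Finset.sum_const, Finset.card_range, nsmul_eq_mul]
      _ ≤ 2 ^ (m + 1) * R ^ (m + 1) := by
          refine mul_le_mul ?_ (pow_le_pow_right₀ hR1 (by omega)) (by positivity) (by positivity)
          exact_mod_cast (Nat.lt_two_pow_self).le
      _ = (2 * R) ^ (m + 1) := (mul_pow 2 R (m + 1)).symm
      _ ≤ (2 ^ (n₁ + n₂)) ^ (m + 1) := by
          refine pow_le_pow_left₀ (by positivity) (hn₁.le.trans ?_) _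
          exact pow_le_pow_right₀ (by norm_num) (by omega)
  · intro m
    refine ⟨(b * β.den ^ 2) ^ m, by positivity, ?_, ?_⟩
    · push_cast
      calc ((b : ℝ) * (β.den : ℝ) ^ 2) ^ m ≤ ((b : ℝ) * (β.den : ℝ) ^ 2) ^ (m + 1) :=
            pow_le_pow_right₀ hbq (by omega)
        _ ≤ (2 ^ (n₁ + n₂)) ^ (m + 1) := by
          refine pow_le_pow_left₀ (by positivity) (hn₂.le.trans ?_) _
          exact pow_le_pow_right₀ (by norm_num) (by omega)
    · intro i hi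
      have key : (((b * β.den ^ 2) ^ m : ℕ) : ℚ) * coeff i (BS β (v : ℚ⟦X⟧)) ∈ (Int.castRingHom ℚ).range := by
        unfold BS PS
        rw [coeff_mk, map_sum, Finset.mul_sum]
        refine Subring.sum_mem _ fun j hj => ?_
        rw [Finset.mem_range] at hj
        obtain ⟨a, ha⟩ := ch_int β j
        have h1 := pow_int v hb j i
        have e : (((b * β.den ^ 2) ^ m : ℕ) : ℚ) * coeff i (C (ch β j) * (v : ℚ⟦X⟧) ^ j) =
            (((b * β.den ^ 2) ^ (m - j) : ℕ) : ℚ) * ((((β.den : ℚ) ^ 2) ^ j * ch β j) *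
              ((b : ℚ) ^ j * coeff i ((v : ℚ⟦X⟧) ^ j))) := by
          rw [coeff_C_mul]
          have e1 : (b * β.den ^ 2) ^ m = (b * β.den ^ 2) ^ (m - j) * (b * β.den ^ 2) ^ j := by
            rw [← pow_add]
            congr 1
            omega
          rw [e1]
          push_cast
          rw [mul_pow (b : ℚ) _ j]
          ring
        rw [e]
        refine Subring.mul_mem _ ⟨((b * β.den ^ 2) ^ (m - j) : ℕ), by simp⟩ (Subring.mul_mem _ ⟨a, ?_⟩ h1)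
        rw [ha]
        rfl
      obtain ⟨a, ha⟩ := key
      exact ⟨a, ha.symm⟩

theorem pw : S_PW := by
  intro u β hu
  set v : Polynomial ℚ := u - 1 with hv
  have hv0 : constantCoeff (v : ℚ⟦X⟧) = 0 := by
    rw [← coeff_zero_eq_constantCoeff_apply, Polynomial.coeff_coe, hv, Polynomial.coeff_sub, hu]
    simp
  have hu1 : (1 : ℚ⟦X⟧) + (v : ℚ⟦X⟧) = (u : ℚ⟦X⟧) := by
    rw [hv]
    push_cast
    ring
  have hd : d⁄dX ℚ (v : ℚ⟦X⟧) = ((Polynomial.derivative u : Polynomial ℚ) : ℚ⟦X⟧) := by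
    have h1 : d⁄dX ℚ (v : ℚ⟦X⟧) = ((Polynomial.derivative v : Polynomial ℚ) : ℚ⟦X⟧) := derivative_coe v
    rw [h1, hv]
    simp
  refine ⟨BS β (v : ℚ⟦X⟧), ?_, ?_, SDc_BS v β⟩
  · unfold BS PS
    rw [coeff_mk]
    simp [ch_zero]
  · have h := ode_BS (β := β) hv0
    rw [hu1, hd] at h
    exact h

end Pool.Agent.P8H47.SE
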