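import Pool.Agent.P8H40.SE.Stm

/-!
# Project SE (helper40), package PRI: primitives of G-functions with a rational exponent
-/

set_option autoImplicit false

open PowerSeries

namespace Pool.Agent.P8H47.SE

open Pool.Agent.Y113 Pool.Agent.P8H40.SE

lemma nat_le_two_pow_pow (q m : ℕ) : (q : ℝ) ≤ (2 ^ q) ^ (m + 1) := by
  have h1 : (q : ℝ) ≤ 2 ^ q := by exact_mod_cast (Nat.lt_two_pow_self).le
  refine h1.trans (le_self_pow₀ (one_le_pow₀ (by norm_num)) (by omega))

lemma lcm_div_int {w : ℤ} {n : ℕ} (h0 : w ≠ 0) (h1 : w.natAbs ≤ n) :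
    ∃ a : ℤ, (Nat.lcmUpto n : ℚ) * (1 / (w : ℚ)) = a := by
  obtain ⟨k, rfl | rfl⟩ := Int.eq_nat_or_neg w
  · rw [Int.natAbs_natCast] at h1
    obtain ⟨a, ha⟩ := lcm_div (j := k) (n := n) (by
      rcases Nat.eq_zero_or_pos k with rfl | h
      · exact absurd rfl h0
      · exact h) h1
    exact ⟨a, by simpa using ha⟩
  · rw [Int.natAbs_neg, Int.natAbs_natCast] at h1
    obtain ⟨a, ha⟩ := lcm_div (j := k) (n := n) (by
      rcases Nat.eq_zero_or_pos k with rfl | h
      · exact absurd rfl h0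
      · exact h) h1
    refine ⟨-a, ?_⟩
    push_cast
    rw [← ha, one_div_neg_eq_neg_one_div]
    ring

theorem pri : S_PRI := by
  intro h e he hS
  obtain ⟨n, hn⟩ := hS
  set p : ℤ := e.num with hp
  set q : ℕ := e.den with hq
  have hq0 : 0 < q := e.den_pos
  have hqQ : (q : ℚ) ≠ 0 := by exact_mod_cast hq0.ne'
  have hepq : e = (p : ℚ) / q := (Rat.num_div_den e).symm
  have hw : ∀ m : ℕ, (m : ℚ) + e = (((m : ℤ) * q + p : ℤ) : ℚ) / q := by
    intro m
    rw [hepq]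
    push_cast
    field_simp
  have hw0 : ∀ m : ℕ, ((m : ℤ) * q + p : ℤ) ≠ 0 := by
    intro m h0
    have h1 := hw m
    rw [h0] at h1
    refine he (-(m : ℤ)) ?_
    push_cast
    simp only [Int.cast_zero, zero_div] at h1
    linarith
  have hco : ∀ m : ℕ, coeff m h / ((m : ℚ) + e) =
      q * (coeff m h * (1 / (((m : ℤ) * q + p : ℤ) : ℚ))) := by
    intro m
    have h1 : (((m : ℤ) * q + p : ℤ) : ℚ) ≠ 0 := by exact_mod_cast hw0 m
    rw [hw m]
    field_simp
  set c : ℕ := q + p.natAbs with hc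
  refine ⟨n + q + 8 * c, ?_, ?_⟩
  · intro m
    rw [coeff_mk, hco]
    push_cast
    have h1 : (1 : ℝ) ≤ |((m : ℝ) * q + p)| := by
      have h2 : (1 : ℤ) ≤ |((m : ℤ) * q + p)| := Int.one_le_abs (hw0 m)
      have h3 : ((1 : ℤ) : ℝ) ≤ ((|((m : ℤ) * q + p)| : ℤ) : ℝ) := by exact_mod_cast h2
      push_cast at h3
      exact h3
    rw [abs_mul, abs_mul, Nat.abs_cast, abs_div, abs_one]
    have h4 : |((coeff m h : ℚ) : ℝ)| * (1 / |(m : ℝ) * q + p|) ≤ (2 ^ n) ^ (m + 1) := by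
      calc |((coeff m h : ℚ) : ℝ)| * (1 / |(m : ℝ) * q + p|) ≤ |((coeff m h : ℚ) : ℝ)| * 1 := by
            refine mul_le_mul_of_nonneg_left ?_ (abs_nonneg _)
            rw [div_le_one (by linarith)]
            exact h1
        _ ≤ _ := by rw [mul_one]; exact hn.1 m
    calc (q : ℝ) * (|((coeff m h : ℚ) : ℝ)| * (1 / |(m : ℝ) * q + p|))
        ≤ (2 ^ q) ^ (m + 1) * (2 ^ n) ^ (m + 1) :=
          mul_le_mul (nat_le_two_pow_pow q m) h4 (by positivity) (by positivity)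
      _ = (2 ^ (n + q)) ^ (m + 1) := by rw [← mul_pow, ← pow_add, add_comm]
      _ ≤ _ := pow_le_pow_left₀ (by positivity) (pow_le_pow_right₀ (by norm_num) (by omega)) _
  · intro m
    obtain ⟨d, hd0, hd, hd'⟩ := hn.2 m
    refine ⟨d * Nat.lcmUpto (c * (m + 1)), Nat.mul_pos hd0 (Nat.lcmUpto_pos _), ?_, ?_⟩
    · push_cast
      calc (d : ℝ) * (Nat.lcmUpto (c * (m + 1)) : ℝ) ≤ (2 ^ n) ^ (m + 1) * (2 ^ 8) ^ (c * (m + 1)) :=
            mul_le_mul hd (lcm_bound _) (by positivity) (by positivity)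
        _ = (2 ^ (n + 8 * c)) ^ (m + 1) := by
            rw [pow_mul (2 ^ 8), ← mul_pow, ← pow_mul 2 8 c, ← pow_add]
        _ ≤ _ := pow_le_pow_left₀ (by positivity) (pow_le_pow_right₀ (by norm_num) (by omega)) _
    · intro j hj
      obtain ⟨a, ha⟩ := hd' j hj
      obtain ⟨b, hb⟩ := lcm_div_int (hw0 j) (n := c * (m + 1)) (by
        have h1 := Int.natAbs_add_le ((j : ℤ) * q) p
        have h2 : ((j : ℤ) * q).natAbs = j * q := by
          rw [Int.natAbs_mul]
          simp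
        have h3 : j * q ≤ m * q := Nat.mul_le_mul_right _ hj
        have h4 : c * (m + 1) = m * q + m * p.natAbs + q + p.natAbs := by rw [hc]; ring
        have h5 : 0 ≤ m * p.natAbs := Nat.zero_le _
        omega)
      refine ⟨a * b * q, ?_⟩
      rw [coeff_mk, hco]
      push_cast
      push_cast at hb
      rw [← ha, ← hb]
      ring

end Pool.Agent.P8H47.SE
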