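import Pool.Agent.P8H47.SE.Pri
import Pool.Agent.Y119.ML.Ev

/-!
# Project SE (helper40), package VAL: the values of the primitives
-/

set_option autoImplicit false

open PowerSeries Filter Topology

namespace Pool.Agent.P8H47.SE

open Pool.Agent.Y113 Pool.Agent.P8H40.SE Pool.Agent.Y119.ML

/-! ### a non-integral power of `t` times an analytic function of `1/t` is not constant -/

lemma const_zero {G : ℂ → ℂ} (hG : AnalyticAt ℂ G 0) {s : ℝ} (hs : ∀ n : ℤ, s ≠ n) {κ : ℂ}
    (h : ∀ᶠ t : ℝ in atTop, ((t ^ s : ℝ) : ℂ) * G (1 / (t : ℂ)) = κ) : κ = 0 := by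
  have hlim : Tendsto (fun t : ℝ => (1 / (t : ℂ))) atTop (𝓝 0) := by
    have h0 : Tendsto (fun t : ℝ => 1 / t) atTop (𝓝 0) := by
      simpa using (tendsto_inv_atTop_zero (𝕜 := ℝ))
    have h1 := (Complex.continuous_ofReal.tendsto 0).comp h0
    rw [Complex.ofReal_zero] at h1
    refine h1.congr fun t => ?_
    simp
  by_cases h0 : ∀ᶠ z in 𝓝 (0 : ℂ), G z = 0
  · obtain ⟨t, h1, h2⟩ := (h.and (hlim.eventually h0)).exists
    rw [← h1, h2, mul_zero]
  · obtain ⟨n, B, hB, hB0, hGB⟩ := hG.exists_eventuallyEq_pow_smul_nonzero_iff.2 h0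
    have hBl : Tendsto (fun t : ℝ => ‖B (1 / (t : ℂ))‖) atTop (𝓝 ‖B 0‖) :=
      (hB.continuousAt.tendsto.comp hlim).norm
    have hB0' : 0 < ‖B 0‖ := norm_pos_iff.2 hB0
    have hev : ∀ᶠ t : ℝ in atTop, t ^ (s - n) * ‖B (1 / (t : ℂ))‖ = ‖κ‖ := by
      filter_upwards [h, hlim.eventually hGB, eventually_gt_atTop 0] with t h1 h2 h3
      rw [← h1, h2, norm_mul, norm_smul, norm_pow, Complex.norm_real, sub_zero,
        Real.norm_of_nonneg (Real.rpow_nonneg h3.le _)]
      have h4 : ‖(1 / (t : ℂ))‖ = t⁻¹ := by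
        rw [norm_div, norm_one, Complex.norm_real, Real.norm_of_nonneg h3.le, one_div]
      rw [h4, Real.rpow_sub h3, Real.rpow_natCast, inv_pow]
      ring
    have hsn : s - n ≠ 0 := fun h => hs n (by push_cast; linarith)
    rcases lt_or_gt_of_ne hsn with hneg | hpos
    · have h1 : Tendsto (fun t : ℝ => t ^ (s - n)) atTop (𝓝 0) := by
        have h2 := tendsto_rpow_neg_atTop (y := -(s - n)) (by linarith)
        simpa using h2
      have h2 := h1.mul hBl
      rw [zero_mul] at h2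
      have h3 : Tendsto (fun _ : ℝ => ‖κ‖) atTop (𝓝 0) := h2.congr' hev
      have h4 := tendsto_nhds_unique h3 tendsto_const_nhds
      exact norm_eq_zero.1 h4.symm
    · exfalso
      have h1 : Tendsto (fun t : ℝ => t ^ (s - n)) atTop atTop := tendsto_rpow_atTop hpos
      have h2 := h1.atTop_mul_pos hB0' hBl
      have h3 : Tendsto (fun _ : ℝ => ‖κ‖) atTop atTop := h2.congr' hev
      obtain ⟨t, ht⟩ := (h3.eventually_gt_atTop ‖κ‖).exists
      exact lt_irrefl _ ht

/-! ### complex values of a power series -/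

lemma analytic_tsum {A : ℝ} {f : ℚ⟦X⟧} (h : SDp A f) :
    AnalyticAt ℂ (fun z : ℂ => ∑' m : ℕ, ((coeff m f : ℚ) : ℂ) * z ^ m) 0 := by
  have hA := h.one_le
  have hA0 : 0 < A := by linarith
  have hd : DifferentiableOn ℂ (fun z : ℂ => ∑' m : ℕ, ((coeff m f : ℚ) : ℂ) * z ^ m)
      (Metric.ball 0 (1 / (2 * A))) := by
    refine Complex.differentiableOn_tsum_of_summable_norm (u := fun m : ℕ => A * (1 / 2) ^ m)
      (summable_geometric_two.mul_left A) (fun m => ?_) Metric.isOpen_ball fun m z hz => ?_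
    · exact ((differentiable_const _).mul (differentiable_id.pow m)).differentiableOn
    · rw [mem_ball_zero_iff] at hz
      rw [norm_mul, norm_pow]
      have h1 : ‖((coeff m f : ℚ) : ℂ)‖ ≤ A ^ (m + 1) := by
        have h2 := h.1 m
        have h3 : ‖((coeff m f : ℚ) : ℂ)‖ = |((coeff m f : ℚ) : ℝ)| := by
          rw [← Complex.ofReal_ratCast, Complex.norm_real, Real.norm_eq_abs]
        rw [h3]
        exact h2
      calc ‖((coeff m f : ℚ) : ℂ)‖ * ‖z‖ ^ m ≤ A ^ (m + 1) * (1 / (2 * A)) ^ m :=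
            mul_le_mul h1 (pow_le_pow_left₀ (norm_nonneg _) hz.le m) (by positivity) (by positivity)
        _ = A * (1 / 2) ^ m := by
            rw [pow_succ, mul_right_comm, ← mul_pow, mul_comm]
            congr 2
            field_simp
  exact hd.analyticAt (Metric.ball_mem_nhds _ (by positivity))

lemma tsum_real (f : ℚ⟦X⟧) (x : ℝ) : ∑' m : ℕ, ((coeff m f : ℚ) : ℂ) * (x : ℂ) ^ m = ((S f x : ℝ) : ℂ) := by
  unfold S
  rw [Complex.ofReal_tsum]
  refine tsum_congr fun m => ?_
  push_cast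
  rfl

lemma S_coe_mul {A : ℝ} {f : ℚ⟦X⟧} (h : SDp A f) (P : Polynomial ℚ) {x : ℝ} (hx0 : 0 ≤ x) (hx : x * A < 1) :
    S ((P : ℚ⟦X⟧) * f) x = Polynomial.aeval x P * S f x := by
  have hA := h.one_le
  rcases hx0.eq_or_lt with rfl | hx1
  · rw [S_zero, S_zero, map_mul]
    push_cast
    congr 1
    rw [← coeff_zero_eq_constantCoeff_apply, Polynomial.coeff_coe, Polynomial.aeval_def,
      Polynomial.eval₂_at_zero]
    rfl
  · have ht : 0 < 1 / x := by positivity
    have hcv : Cv (1 / x) f := by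
      refine Cv.of_bound (A := A) (B := A) ht (by linarith) ?_ fun m => ?_
      · rw [lt_div_iff₀ hx1]
        linarith
      · exact (h.1 m).trans (le_of_eq (pow_succ' _ _))
    have h1 := (Cv.coe (t := 1 / x) P).ev_mul ht hcv
    rw [ev_coe, ev_eq, ev_eq, one_div_one_div] at h1
    exact h1

lemma const_on {f : ℝ → ℝ} {b : ℝ} (hd : ∀ x, 0 ≤ x → x < b → HasDerivAt f 0 x) {x : ℝ} (h0 : 0 ≤ x)
    (hx : x < b) : f x = f 0 := by
  refine constant_of_has_deriv_right_zero (a := 0) (b := x) (f := f) ?_ ?_ x ⟨h0, le_rfl⟩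
  · intro y hy
    exact (hd y hy.1 (lt_of_le_of_lt hy.2 hx)).continuousAt.continuousWithinAt
  · intro y hy
    exact (hd y hy.1 (hy.2.trans hx)).hasDerivWithinAt

section
variable {p : ℕ}

/-- the values of the solution of the differential equation -/
lemma S_eq {r : Fin p → Polynomial ℚ} (hr : ∀ i, (r i).coeff 0 = 1) {a : Fin p → ℚ} {h : ℚ⟦X⟧} {A : ℝ}
    (hA : SDp A h) (h0 : coeff 0 h = 1)
    (hode : (∏ i, (r i : ℚ⟦X⟧)) * d⁄dX ℚ h = -(∑ i, C (a i) * ((Polynomial.derivative (r i) : Polynomial ℚ) : ℚ⟦X⟧) *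
      ∏ k ∈ Finset.univ.erase i, (r k : ℚ⟦X⟧)) * h) :
    ∃ δ : ℝ, 0 < δ ∧ ∀ x : ℝ, 0 ≤ x → x < δ → (∀ i, 0 < Polynomial.aeval x (r i)) ∧
      S h x = Real.exp (-∑ i, (a i : ℝ) * Real.log (Polynomial.aeval x (r i))) := by
  classical
  have hA1 := hA.one_le
  have hpos : ∀ᶠ x : ℝ in 𝓝 0, ∀ i, 0 < Polynomial.aeval x (r i) := by
    rw [eventually_all]
    intro i
    have hc : ContinuousAt (fun x : ℝ => Polynomial.aeval x (r i)) 0 := ((r i).continuous_aeval).continuousAt
    have h1 : (0 : ℝ) < Polynomial.aeval (0 : ℝ) (r i) := by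
      rw [Polynomial.aeval_def, Polynomial.eval₂_at_zero, hr i]
      simp
    exact hc.eventually (lt_mem_nhds h1)
  obtain ⟨δ₁, hδ₁, h1⟩ := Metric.eventually_nhds_iff.1 hpos
  set δ : ℝ := min δ₁ (1 / (2 * A ^ 2)) with hδ
  have hδ0 : 0 < δ := lt_min hδ₁ (by positivity)
  have hδA : ∀ x : ℝ, x < δ → x * (2 * A ^ 2) < 1 := by
    intro x hx
    have := lt_of_lt_of_le hx (min_le_right _ _)
    rwa [lt_div_iff₀ (by positivity)] at this
  have hpos' : ∀ x : ℝ, 0 ≤ x → x < δ → ∀ i, 0 < Polynomial.aeval x (r i) := by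
    intro x hx0 hx
    refine h1 ?_
    rw [Real.dist_eq, sub_zero, abs_of_nonneg hx0]
    exact lt_of_lt_of_le hx (min_le_left _ _)
  refine ⟨δ, hδ0, fun x hx0 hx => ⟨hpos' x hx0 hx, ?_⟩⟩
  set φ : ℝ → ℝ := fun x => S h x * Real.exp (∑ i, (a i : ℝ) * Real.log (Polynomial.aeval x (r i))) with hφ
  have hder : ∀ y, 0 ≤ y → y < δ → HasDerivAt φ 0 y := by
    intro y hy0 hy
    have hyA : y * (2 * A ^ 2) < 1 := hδA y hy
    have hyA1 : |y| * A < 1 := by
      rw [abs_of_nonneg hy0]
      have : y * A ≤ y * (2 * A ^ 2) := mul_le_mul_of_nonneg_left (by nlinarith) hy0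
      linarith
    have d1 := hasDerivAt_S hA hyA1
    have d2 : HasDerivAt (fun x : ℝ => ∑ i, (a i : ℝ) * Real.log (Polynomial.aeval x (r i)))
        (∑ i, (a i : ℝ) * (Polynomial.aeval y (Polynomial.derivative (r i)) / Polynomial.aeval y (r i))) y := by
      refine HasDerivAt.fun_sum fun i _ => ?_
      exact (((r i).hasDerivAt_aeval y).log (hpos' y hy0 hy i).ne').const_mul _
    have d3 := d1.mul d2.exp
    have e1 : (∏ i, Polynomial.aeval y (r i)) * S (d⁄dX ℚ h) y =
        -(∑ i, (a i : ℝ) * Polynomial.aeval y (Polynomial.derivative (r i)) *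
          ∏ k ∈ Finset.univ.erase i, Polynomial.aeval y (r k)) * S h y := by
      have e2 : (∏ i, (r i : ℚ⟦X⟧)) = ((∏ i, r i : Polynomial ℚ) : ℚ⟦X⟧) := by
        rw [← Polynomial.coeToPowerSeries.ringHom_apply, map_prod]
        rfl
      have e3 : -(∑ i, C (a i) * ((Polynomial.derivative (r i) : Polynomial ℚ) : ℚ⟦X⟧) *
          ∏ k ∈ Finset.univ.erase i, (r k : ℚ⟦X⟧)) =
          ((-(∑ i, Polynomial.C (a i) * Polynomial.derivative (r i) *
            ∏ k ∈ Finset.univ.erase i, r k) : Polynomial ℚ) : ℚ⟦X⟧) := by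
        rw [← Polynomial.coeToPowerSeries.ringHom_apply, map_neg, map_sum]
        congr 1
        refine Finset.sum_congr rfl fun i _ => ?_
        rw [map_mul, map_mul, map_prod, Polynomial.coeToPowerSeries.ringHom_apply,
          Polynomial.coeToPowerSeries.ringHom_apply, Polynomial.coe_C]
        rfl
      rw [e2, e3] at hode
      have e4 := congrArg (fun f => S f y) hode
      simp only at e4
      rw [S_coe_mul hA.deriv _ hy0 hyA, S_coe_mul hA _ hy0 (by rwa [abs_of_nonneg hy0] at hyA1)] at e4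
      rw [map_prod] at e4
      rw [e4, map_neg, map_sum]
      congr 2
      refine Finset.sum_congr rfl fun i _ => ?_
      rw [map_mul, map_mul, map_prod, Polynomial.aeval_C]
      rfl
    have hP : (∏ i, Polynomial.aeval y (r i)) ≠ 0 := Finset.prod_ne_zero_iff.2 fun i _ => (hpos' y hy0 hy i).ne'
    have e5 : S (d⁄dX ℚ h) y = -(∑ i, (a i : ℝ) *
        (Polynomial.aeval y (Polynomial.derivative (r i)) / Polynomial.aeval y (r i))) * S h y := by
      apply mul_left_cancel₀ hP
      rw [e1, neg_mul, neg_mul, mul_neg, ← mul_assoc, Finset.mul_sum]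
      congr 2
      refine Finset.sum_congr rfl fun i _ => ?_
      rw [← Finset.mul_prod_erase Finset.univ (fun i => Polynomial.aeval y (r i)) (Finset.mem_univ i)]
      have := (hpos' y hy0 hy i).ne'
      field_simp
    refine d3.congr_deriv ?_
    rw [e5]
    ring
  have hc := const_on hder hx0 hx
  simp only [hφ] at hc
  have hz : S h 0 = 1 := by
    rw [S_zero, ← coeff_zero_eq_constantCoeff_apply, h0]
    simp
  have hz2 : ∑ i, (a i : ℝ) * Real.log (Polynomial.aeval (0 : ℝ) (r i)) = 0 := by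
    refine Finset.sum_eq_zero fun i _ => ?_
    rw [Polynomial.aeval_def, Polynomial.eval₂_at_zero, hr i]
    simp
  rw [hz, hz2, Real.exp_zero, mul_one] at hc
  rw [Real.exp_neg]
  exact eq_inv_of_mul_eq_one_left hc

end

lemma revq_zero {g : Polynomial ℤ} (hg : 0 < g.leadingCoeff) : (revq g).coeff 0 = 1 := by
  unfold revq
  rw [Polynomial.coeff_C_mul, Polynomial.coeff_map, Polynomial.coeff_zero_reverse]
  have : (g.leadingCoeff : ℚ) ≠ 0 := by exact_mod_cast hg.ne'
  simp only [eq_intCast]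
  field_simp

lemma eval_revq {g : Polynomial ℤ} (hg : 0 < g.leadingCoeff) {t : ℝ} (ht : 0 < t) :
    (g.map (Int.castRingHom ℝ)).eval t =
      (g.leadingCoeff : ℝ) * t ^ g.natDegree * Polynomial.aeval (1 / t) (revq g) := by
  have hl : (g.leadingCoeff : ℝ) ≠ 0 := by exact_mod_cast hg.ne'
  letI : Invertible t := invertibleOfNonzero ht.ne'
  have h1 := Polynomial.eval₂_reverse_mul_pow (Int.castRingHom ℝ) t g
  have h2 : Polynomial.aeval (1 / t) (revq g) =
      (1 / (g.leadingCoeff : ℝ)) * Polynomial.eval₂ (Int.castRingHom ℝ) (⅟t) g.reverse := by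
    unfold revq
    rw [map_mul, Polynomial.aeval_C, Polynomial.aeval_def, Polynomial.eval₂_map]
    have e1 : (algebraMap ℚ ℝ) (1 / (g.leadingCoeff : ℚ)) = 1 / (g.leadingCoeff : ℝ) := by simp
    have e2 : (algebraMap ℚ ℝ).comp (Int.castRingHom ℚ) = Int.castRingHom ℝ := RingHom.ext_int _ _
    rw [e1, e2, invOf_eq_inv, one_div t]
  rw [h2, Polynomial.eval_map, ← h1]
  field_simp

theorem val : S_VAL := by
  classical
  intro p g a j h hlc h0 hSD hode hz F hF
  obtain ⟨G, hG, hFe⟩ := hF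
  set e : ℚ := ex g a j with he
  set K : ℚ⟦X⟧ := PowerSeries.mk fun m => coeff m h / ((m : ℚ) + e) with hK
  have hKS : SDc K := pri h e (fun n hn => hz n hn) hSD
  obtain ⟨n₁, hn₁⟩ := hSD
  obtain ⟨n₂, hn₂⟩ := hKS
  set A : ℝ := 2 ^ (n₁ + n₂) with hA
  have hAh : SDp A h := hn₁.mono (pow_le_pow_right₀ (by norm_num) (by omega))
  have hAK : SDp A K := hn₂.mono (pow_le_pow_right₀ (by norm_num) (by omega))
  have hA1 := hAh.one_le
  obtain ⟨δ, hδ0, hδ⟩ := S_eq (r := fun i => revq (g i)) (fun i => revq_zero (hlc i)) hAh h0 hode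
  set c : ℝ := ∏ i, ((g i).leadingCoeff : ℝ) ^ (-(a i : ℝ)) with hc
  -- the differential equation of `K`
  have hKode : C e * K + X * d⁄dX ℚ K = h := by
    ext m
    have hme : ((m : ℚ) + e) ≠ 0 := by
      intro h1
      refine hz (-(m : ℤ)) ?_
      push_cast
      linarith
    rw [map_add, coeff_C_mul]
    rcases m with _ | m
    · rw [coeff_zero_X_mul, hK, coeff_mk, add_zero]
      field_simp
      rw [Nat.cast_zero, zero_add]
    · rw [coeff_succ_X_mul, coeff_derivative, hK, coeff_mk]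
      field_simp
      push_cast
      ring
  have hKS' : ∀ x : ℝ, 0 ≤ x → x * (2 * A ^ 2) < 1 → e * S K x + x * S (d⁄dX ℚ K) x = S h x := by
    intro x hx0 hx
    have hxA : x * A < 1 := by
      have : x * A ≤ x * (2 * A ^ 2) := mul_le_mul_of_nonneg_left (by nlinarith) hx0
      linarith
    rw [← hKode]
    have e1 : S (C e * K + X * d⁄dX ℚ K) x = S (C e * K) x + S (X * d⁄dX ℚ K) x := by
      unfold S
      rcases hx0.eq_or_lt with rfl | hx1
      · rw [tsum_eq_single 0 (by intro m hm; simp [hm]), tsum_eq_single 0 (by intro m hm; simp [hm]),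
          tsum_eq_single 0 (by intro m hm; simp [hm])]
        simp
      · have ht : 0 < 1 / x := by positivity
        have c1 : Cv (1 / x) K := by
          refine Cv.of_bound (A := A) (B := A) ht (by linarith) ?_ fun m => ?_
          · rw [lt_div_iff₀ hx1]
            linarith
          · exact (hAK.1 m).trans (le_of_eq (pow_succ' _ _))
        have c2 : Cv (1 / x) (d⁄dX ℚ K) := by
          refine Cv.of_bound (A := 2 * A ^ 2) (B := 2 * A ^ 2) ht (by positivity) ?_ fun m => ?_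
          · rw [lt_div_iff₀ hx1]
            linarith
          · exact (hAK.deriv.1 m).trans (le_of_eq (pow_succ' _ _))
        have c3 : Cv (1 / x) (C e * K) := (Cv.C e).mul ht c1
        have c4 : Cv (1 / x) (X * d⁄dX ℚ K) := by
          have := (Cv.coe (t := 1 / x) (Polynomial.X : Polynomial ℚ)).mul ht c2
          rwa [Polynomial.coe_X] at this
        have h1 := c3.ev_add ht c4
        unfold ev at h1
        rw [one_div_one_div] at h1
        exact h1
    have e2 : S (C e * K) x = e * S K x := by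
      rw [← Polynomial.coe_C, S_coe_mul hAK _ hx0 hxA, Polynomial.aeval_C]
      rfl
    have e3 : S (X * d⁄dX ℚ K) x = x * S (d⁄dX ℚ K) x := by
      rw [← Polynomial.coe_X, S_coe_mul hAK.deriv _ hx0 hx, Polynomial.aeval_X]
    rw [e1, e2, e3]
  -- the integrand near infinity
  have hint : ∀ t : ℝ, 0 < t → 1 / t < δ → integrand g a j t = c * t ^ (-(e : ℝ) - 1) * S h (1 / t) := by
    intro t ht htδ
    obtain ⟨hr, hS⟩ := hδ (1 / t) (by positivity) htδ
    unfold integrand
    have h1 : ∀ i, ((g i).map (Int.castRingHom ℝ)).eval t ^ (-(a i : ℝ)) =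
        ((g i).leadingCoeff : ℝ) ^ (-(a i : ℝ)) * t ^ (((g i).natDegree : ℝ) * -(a i : ℝ)) *
          Real.exp (-((a i : ℝ) * Real.log (Polynomial.aeval (1 / t) (revq (g i))))) := by
      intro i
      have hl : (0 : ℝ) < ((g i).leadingCoeff : ℝ) := by exact_mod_cast hlc i
      rw [eval_revq (hlc i) ht, Real.mul_rpow (by positivity) (hr i).le, Real.mul_rpow hl.le (by positivity),
        ← Real.rpow_natCast, ← Real.rpow_mul ht.le, Real.rpow_def_of_pos (hr i)]
      congr 2
      ring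
    rw [Finset.prod_congr rfl fun i _ => h1 i, Finset.prod_mul_distrib, Finset.prod_mul_distrib, ← Real.exp_sum,
      ← Real.rpow_sum_of_pos ht, hS, ← Finset.sum_neg_distrib]
    have h2 : t ^ j * t ^ (∑ i, ((g i).natDegree : ℝ) * -(a i : ℝ)) = t ^ (-(e : ℝ) - 1) := by
      rw [← Real.rpow_natCast, ← Real.rpow_add ht]
      congr 1
      rw [he]
      unfold Pool.Agent.P8H40.SE.ex
      push_cast
      have h3 : ∑ i, ((g i).natDegree : ℝ) * -(a i : ℝ) = -∑ i, (a i : ℝ) * ((g i).natDegree : ℝ) := by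
        rw [← Finset.sum_neg_distrib]
        exact Finset.sum_congr rfl fun i _ => by ring
      rw [h3]
      ring
    rw [← h2]
    ring
  -- the second primitive
  set F₁ : ℝ → ℝ := fun t => -(c * t ^ (-(e : ℝ)) * S K (1 / t)) with hF₁
  have hF₁d : ∀ t : ℝ, 0 < t → 1 / t < δ → 1 / t * (2 * A ^ 2) < 1 → HasDerivAt F₁ (integrand g a j t) t := by
    intro t ht htδ htA
    have hx0 : 0 ≤ 1 / t := by positivity
    have hxA : |1 / t| * A < 1 := by
      rw [abs_of_nonneg hx0]
      have : 1 / t * A ≤ 1 / t * (2 * A ^ 2) := mul_le_mul_of_nonneg_left (by nlinarith) hx0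
      linarith
    have d1 : HasDerivAt (fun t : ℝ => t ^ (-(e : ℝ))) (-(e : ℝ) * t ^ (-(e : ℝ) - 1)) t :=
      Real.hasDerivAt_rpow_const (Or.inl ht.ne')
    have d2 : HasDerivAt (fun t : ℝ => 1 / t) (-(1 / t ^ 2)) t := by
      have := hasDerivAt_inv ht.ne'
      simpa [one_div] using this
    have d3 : HasDerivAt (fun t : ℝ => S K (1 / t)) (S (d⁄dX ℚ K) (1 / t) * -(1 / t ^ 2)) t :=
      (hasDerivAt_S hAK hxA).comp t d2
    have d4 := ((d1.const_mul c).mul d3).neg
    rw [hint t ht htδ, ← hKS' (1 / t) hx0 htA]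
    refine d4.congr_deriv ?_
    have h1 : t ^ (-(e : ℝ)) = t ^ (-(e : ℝ) - 1) * t := by
      rw [Real.rpow_sub_one ht.ne']
      field_simp
    rw [h1]
    field_simp
    ring
  -- the difference is constant
  have hsmall : ∀ᶠ t : ℝ in atTop, 0 < t ∧ 1 / t < δ ∧ 1 / t * (2 * A ^ 2) < 1 := by
    have h1 : Tendsto (fun t : ℝ => 1 / t) atTop (𝓝 0) := by simpa using tendsto_inv_atTop_zero
    have h2 : Tendsto (fun t : ℝ => 1 / t * (2 * A ^ 2)) atTop (𝓝 (0 * (2 * A ^ 2))) := h1.mul_const _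
    rw [zero_mul] at h2
    filter_upwards [eventually_gt_atTop 0, h1.eventually_lt_const hδ0, h2.eventually_lt_const one_pos] with t a b c
    exact ⟨a, b, c⟩
  obtain ⟨T, hT⟩ := eventually_atTop.1 (hsmall.and hFe)
  have hconst : ∀ t, T < t → F t - ((F₁ t : ℝ) : ℂ) = F (T + 1) - ((F₁ (T + 1) : ℝ) : ℂ) := by
    intro t ht
    have hd : ∀ u ∈ Set.Ioi T, HasDerivAt (fun u => F u - ((F₁ u : ℝ) : ℂ)) 0 u := by
      intro u hu
      obtain ⟨⟨a1, a2, a3⟩, b1, b2⟩ := hT u (le_of_lt hu)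
      have := b1.sub (hF₁d u a1 a2 a3).ofReal_comp
      rw [sub_self] at this
      exact this
    exact isOpen_Ioi.is_const_of_deriv_eq_zero isPreconnected_Ioi
      (fun u hu => (hd u hu).differentiableAt.differentiableWithinAt) (fun u hu => (hd u hu).deriv) ht
      (show T < T + 1 by linarith)
  set κ : ℂ := F (T + 1) - ((F₁ (T + 1) : ℝ) : ℂ) with hκ
  have hκ0 : κ = 0 := by
    have hG2 : AnalyticAt ℂ (fun z : ℂ => G z + (c : ℂ) * ∑' m : ℕ, ((coeff m K : ℚ) : ℂ) * z ^ m) 0 :=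
      hG.add (analyticAt_const.mul (analytic_tsum hAK))
    refine const_zero hG2 (s := -(e : ℝ)) (fun n hn => hz (-n) ?_) ?_
    · have h1 : (e : ℝ) = ((-n : ℤ) : ℝ) := by push_cast; linarith
      exact_mod_cast h1
    · filter_upwards [eventually_gt_atTop T, eventually_ge_atTop T] with t ht1 ht2
      obtain ⟨⟨a1, a2, a3⟩, b1, b2⟩ := hT t ht2
      have h1 := hconst t ht1
      rw [← h1, b2, hF₁]
      have h2 : (1 / (t : ℂ)) = ((1 / t : ℝ) : ℂ) := by push_cast; rfl
      rw [h2, tsum_real]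
      push_cast
      ring
  filter_upwards [eventually_gt_atTop T] with t ht
  have h1 := hconst t ht
  rw [hκ0, sub_eq_zero] at h1
  rw [h1, hF₁, ev_eq]
  push_cast
  rfl

end Pool.Agent.P8H47.SE
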